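import Pool.Agent.helper62.CIS.Mem

/-!
# Recognition of CIS graphs is co-NP-complete

Cliques and stable (independent) sets are those of Mathlib (`SimpleGraph.IsClique`,
`SimpleGraph.IsIndepSet`). Decision problems (sets of bit strings), the classes `NP` and `coNP`,
polynomial-time computability, the encoding of lists by bit strings, many-one reductions and
completeness (`IsCompleteFor`) are those of `Pool.Prelude`.
-/

namespace Pool.Agent.Results.MP_bb030f_lc.CISRecognitionCoNPComplete

open N68a2faeb N793a5b8e

/-- A graph is CIS if every (inclusion-wise) maximal clique meets every maximal stable set. -/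
def IsCIS {V : Type*} (G : SimpleGraph V) : Prop :=
  ∀ C S : Set V, Maximal G.IsClique C → Maximal G.IsIndepSet S → (C ∩ S).Nonempty

open Classical in
/-- The adjacency matrix of a graph on the vertices `0, …, n - 1`, as the list of its rows. -/
noncomputable def adjMatrix {n : ℕ} (G : SimpleGraph (Fin n)) : List (List Bool) :=
  List.ofFn fun i => List.ofFn fun j => decide (G.Adj i j)

open Classical in
/-- CIS RECOGNITION: a bit string is accepted if it is the code of the adjacency matrix of a CIS
graph. -/
noncomputable def cisRecognition : DecisionProblem := fun x =>
  decide (∃ (n : ℕ) (G : SimpleGraph (Fin n)), x = N487b59b3.bitEncode (adjMatrix G) ∧ IsCIS G)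

lemma eq_cisProblem : cisRecognition = Pool.Agent.helper62.CIS.cisProblem := rfl

/-- **Theorem.** CIS RECOGNITION is co-NP-complete under polynomial-time many-one reductions. -/
theorem result : IsCompleteFor coNP cisRecognition := by
  rw [eq_cisProblem]
  exact ⟨Pool.Agent.helper62.CIS.mem_coNP, Pool.Agent.helper62.CIS.hard'⟩

end Pool.Agent.Results.MP_bb030f_lc.CISRecognitionCoNPComplete
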